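import Pool.Agent.CdV.Mem

/-!
# Lower bounds on the Colin de Verdière invariant: an `∃ℝ`-complete problem

`Pool.Agent.NPC.ER.CdV.mu G` is the Colin de Verdière invariant of a finite simple graph `G`, and
`CdVP (g, k)` says that `g` is the code of a graph and `k ≤ mu g.graph`.

Sketch of the proof of hardness.  Take a vertex `o` and vertices for finite sets `I`, `W`, where
`o` is adjacent to all of `W` and to nothing else, `I` is independent, `i ∈ I` is adjacent to
`w ∈ W` if `i` is in the given support of `w`, and `w, w' ∈ W` are adjacent unless a given relation
says that they are orthogonal.  If `W` contains a vertex of empty support and for every `i` a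
vertex of support `{i}`, then a matrix of `𝓜(G)` of corank at least `|W|` gives vectors `x_w` in
`ℝ^I` with the given supports, with positive coordinates on them, with `x_w · x_w' = 1` if `w, w'`
are orthogonal and `x_w · x_w' < 1` otherwise (the orthogonality is that of the vectors
`(1, x_w)` of Lorentz space); conversely such vectors give a matrix of corank `|W|` with one
negative eigenvalue, and the strong Arnold property holds as soon as a linear system attached to
the vectors has only the zero solution (`Pool.Agent.CdV.Gen`).

The relations of the form `y a_c + z a_d = 1` for pairs of values on a line, together with order
relations between the values, are expressed by such vectors, in a way that makes the strong Arnold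
property hold (`Pool.Agent.CdV.Net`, `Net2`, `Net3`).  Finally the order type of the values of a
straight-line program is coded by lines of this kind (`Pool.Agent.CdV.NetO` to `NetF`), and
satisfiability of the order constraints along straight-line programs is `∃ℝ`-hard
(`Pool.Agent.H612.OslpMain`).
-/

namespace Pool.Agent.Results.MP_79a9b1_lc.ColinDeVerdiereComplete

open Pool.Agent.NPC Pool.Agent.NPC.ER Pool.Agent.NPC.ER.CdV

/-- Deciding, given `(G, k)`, whether the Colin de Verdière invariant of `G` is at least `k` is
`∃ℝ`-complete. -/
theorem result : ERComplete (lang CdVP) := ⟨mem, hard⟩

end Pool.Agent.Results.MP_79a9b1_lc.ColinDeVerdiereComplete
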